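import Pool.Agent.U728.Lie.Stm

set_option autoImplicit false

/-! Package SUB of Project LA: substitution is primitive recursive and has the right meaning. -/

namespace Pool.Agent.U59.LA

open MvPolynomial Pool.Agent.Helper967.AD Pool.Agent.Helper967.FL Pool.Agent.U728.Lie

universe u

theorem subT_primrec : Primrec₂ subT := by
  have hv : Primrec₂ fun (a : ℕ × ℕ) (i : ℕ) => if i = a.1 then a.2 else varC i := by
    refine Primrec.ite (Primrec.eq.comp Primrec.snd (Primrec.fst.comp Primrec.fst))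
      (Primrec.snd.comp Primrec.fst) (varC_primrec.comp Primrec.snd)
  exact rec5_primrec hv addC_primrec mulC_primrec cstC_primrec

theorem subF_primrec : Primrec₂ subF := by
  apply sr_primrec
  have hL : Primrec fun p : (ℕ × ℕ) × List ℕ => p.2.length.unpair :=
    Primrec.unpair.comp (Primrec.list_length.comp Primrec.snd)
  have h1 : Primrec fun p : (ℕ × ℕ) × List ℕ => p.2.length.unpair.1 := Primrec.fst.comp hL
  have hR : Primrec fun p : (ℕ × ℕ) × List ℕ => p.2.length.unpair.2 := Primrec.snd.comp hL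
  have hU : Primrec fun p : (ℕ × ℕ) × List ℕ => p.2.length.unpair.2.unpair :=
    Primrec.unpair.comp hR
  have hR' : Primrec fun p : (ℕ × ℕ) × List ℕ => p.2.getD p.2.length.unpair.2 0 :=
    (Primrec.list_getD 0).comp Primrec.snd hR
  have hA : Primrec fun p : (ℕ × ℕ) × List ℕ => p.2.getD p.2.length.unpair.2.unpair.1 0 :=
    (Primrec.list_getD 0).comp Primrec.snd (Primrec.fst.comp hU)
  have hB : Primrec fun p : (ℕ × ℕ) × List ℕ => p.2.getD p.2.length.unpair.2.unpair.2 0 :=
    (Primrec.list_getD 0).comp Primrec.snd (Primrec.snd.comp hU)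
  have e : ∀ k : ℕ, PrimrecPred fun p : (ℕ × ℕ) × List ℕ => p.2.length.unpair.1 = k := fun k =>
    Primrec.eq.comp h1 (Primrec.const k)
  refine Primrec.ite (e 0) (Primrec₂.natPair.comp (Primrec.const 0) (Primrec₂.natPair.comp
    (subT_primrec.comp Primrec.fst (Primrec.fst.comp hU))
    (subT_primrec.comp Primrec.fst (Primrec.snd.comp hU)))) ?_
  refine Primrec.ite (e 1) (Primrec₂.natPair.comp (Primrec.const 1) hR') ?_
  refine Primrec.ite (e 2) (Primrec₂.natPair.comp (Primrec.const 2)
    (Primrec₂.natPair.comp hA hB)) ?_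
  exact Primrec₂.natPair.comp (Primrec.const 3) (Primrec₂.natPair.comp hA hB)

section eqs

variable (a : ℕ × ℕ)

theorem subF_atom (i : ℕ) : subF a (Nat.pair 0 i) =
    Nat.pair 0 (Nat.pair (subT a i.unpair.1) (subT a i.unpair.2)) := by
  simp [subF, sr, stepS, srl_length]

theorem subF_not (s : ℕ) : subF a (Nat.pair 1 s) = Nat.pair 1 (subF a s) := by
  rw [subF, sr, stepS]
  simp only [srl_length, Nat.unpair_pair]
  rw [srl_getD _ _ _ _ _ (lt_pair (by norm_num))]
  simp [subF]

theorem subF_and (s t : ℕ) : subF a (Nat.pair 2 (Nat.pair s t)) =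
    Nat.pair 2 (Nat.pair (subF a s) (subF a t)) := by
  rw [subF, sr, stepS]
  simp only [srl_length, Nat.unpair_pair]
  rw [srl_getD _ _ _ _ _ (lt_pair_left (by norm_num)),
    srl_getD _ _ _ _ _ (lt_pair_right (by norm_num))]
  simp [subF]

theorem subF_or (k s t : ℕ) : subF a (Nat.pair (k + 3) (Nat.pair s t)) =
    Nat.pair 3 (Nat.pair (subF a s) (subF a t)) := by
  rw [subF, sr, stepS]
  simp only [srl_length, Nat.unpair_pair]
  rw [srl_getD _ _ _ _ _ (lt_pair_left (by omega)),
    srl_getD _ _ _ _ _ (lt_pair_right (by omega))]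
  simp [subF]

end eqs

section meaning

variable {F : Type u} [Field F] [CharZero F] (e : ℕ → F) (k t : ℕ)

theorem aeval_subT (n : ℕ) : aeval e (pol (subT (k, t) n)) =
    aeval (Function.update e k (aeval e (pol t))) (pol n) := by
  induction n using ind5 with
  | hv i =>
    rw [subT, rec5_var, pol_var, aeval_X]
    by_cases h : i = k
    · subst h
      simp
    · simp [h, pol_varC]
  | hz i => rw [subT, rec5_zero, pol_zero, pol_zeroC, map_zero, map_zero]
  | ho i => rw [subT, rec5_one, pol_one, pol_oneC, map_one, map_one]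
  | had s t' hs ht =>
    rw [pol_add, map_add, ← hs, ← ht, subT, rec5_add, pol_addC, map_add]
    rfl
  | hmu s t' hs ht =>
    rw [pol_mul, map_mul, ← hs, ← ht, subT, rec5_mul, pol_mulC, map_mul]
    rfl
  | hcs j r => rw [subT, rec5_cst, pol_cst, pol_cstC, aeval_C, aeval_C]

theorem H_atom (e : ℕ → F) (i : ℕ) : H e (Nat.pair 0 i) ↔
    aeval e (pol i.unpair.1) = aeval e (pol i.unpair.2) := by
  rw [H, bevG_atom, TF_iff, P, map_sub, sub_eq_zero]

theorem H_not (e : ℕ → F) (s : ℕ) : H e (Nat.pair 1 s) ↔ ¬ H e s := by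
  rw [H, bevG_not, H]; simp

theorem H_and (e : ℕ → F) (s t : ℕ) : H e (Nat.pair 2 (Nat.pair s t)) ↔ H e s ∧ H e t := by
  rw [H, bevG_and, H, H]; simp

theorem H_or (e : ℕ → F) (j s t : ℕ) :
    H e (Nat.pair (j + 3) (Nat.pair s t)) ↔ H e s ∨ H e t := by
  rw [H, bevG_or, H, H]; simp

theorem H_subF (n : ℕ) : H e (subF (k, t) n) ↔
    H (Function.update e k (aeval e (pol t))) n := by
  induction n using indB with
  | h0 i =>
    rw [subF_atom, H_atom, H_atom, Nat.unpair_pair, aeval_subT, aeval_subT]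
  | h1 s hs => rw [subF_not, H_not, H_not, hs]
  | h2 s t' hs ht => rw [subF_and, H_and, H_and, hs, ht]
  | h3 j s t' hs ht =>
    rw [subF_or, H_or (Function.update e k (aeval e (pol t))), ← hs, ← ht]
    exact H_or e 0 _ _

end meaning

theorem t_SUB : S_SUB.{u} :=
  ⟨subT_primrec, subF_primrec, fun _ _ _ e k t n => ⟨aeval_subT e k t n, H_subF e k t n⟩⟩

end Pool.Agent.U59.LA
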